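import Pool.Agent.U108.DP.W8

set_option autoImplicit false

/-! Points with restricted digits on arithmetic spheres. -/

namespace Pool.Agent.U108.KS

open Finset
open Pool.Agent.TH212.EH (En)
open Pool.Agent.U108.DP (Bo poly_energy)
open Pool.Agent.TH872.GQ (S)

open Classical in
/-- the number of solutions -/
noncomputable def cnt {ι : Type} [Fintype ι] (v : ι → ℤ) (d : ℕ) (t : ℤ) : ℕ :=
  (univ.filter (fun q : Fin d → ι => ∑ j, v (q j) = t)).card

lemma sq_bound {α : Type} [Fintype α] [DecidableEq α] (V : α → ℤ) (t : ℤ) :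
    (univ.filter (fun q : α × α => V q.1 + V q.2 = t)).card ≤ (univ.filter (fun q : α × α => V q.1 = V q.2)).card := by
  classical
  obtain ⟨R, hR⟩ : ∃ R : ℤ → ℕ, R = fun a => (univ.filter (fun w : α => V w = a)).card := ⟨_, rfl⟩
  obtain ⟨T, hT⟩ : ∃ T : Finset ℤ, T = univ.image V := ⟨_, rfl⟩
  have hRT : ∀ a, a ∉ T → R a = 0 := by
    intro a ha
    rw [hR]
    simp only [card_eq_zero, filter_eq_empty_iff]
    intro w _ hw
    exact ha (by rw [hT, ← hw]; exact mem_image_of_mem _ (mem_univ _))
  have key : ∀ g : ℤ → ℤ, (univ.filter (fun q : α × α => V q.2 = g (V q.1))).card = ∑ a ∈ T, R a * R (g a) := by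
    intro g
    have e1 : (univ.filter (fun q : α × α => V q.2 = g (V q.1))).card = ∑ u : α, R (g (V u)) := by
      rw [card_filter, ← univ_product_univ, sum_product]
      apply sum_congr rfl
      intro u _
      rw [hR]
      simp only [card_filter]
    rw [e1, ← sum_fiberwise_of_maps_to (s := univ) (t := T) (g := V) (fun u _ => by rw [hT]; exact mem_image_of_mem _ (mem_univ _))]
    apply sum_congr rfl
    intro a _
    rw [sum_congr rfl (g := fun _ => R (g a)) (fun u hu => by rw [(mem_filter.1 hu).2])]
    rw [sum_const, smul_eq_mul]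
    rw [hR]
  have h1 : (univ.filter (fun q : α × α => V q.1 + V q.2 = t)).card = ∑ a ∈ T, R a * R (t - a) := by
    rw [← key (fun a => t - a)]
    congr 1
    ext q
    simp only [mem_filter, mem_univ, true_and]
    constructor <;> intro h <;> linarith
  have h2 : (univ.filter (fun q : α × α => V q.1 = V q.2)).card = ∑ a ∈ T, R a * R a := by
    rw [← key (fun a => a)]
    congr 1
    ext q
    simp only [mem_filter, mem_univ, true_and]
    exact eq_comm
  rw [h1, h2]
  have h3 : ∑ a ∈ T, R (t - a) * R (t - a) ≤ ∑ a ∈ T, R a * R a := by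
    calc ∑ a ∈ T, R (t - a) * R (t - a) = ∑ c ∈ T.image (fun a => t - a), R c * R c := by
          rw [sum_image]
          intro x _ y _ h
          have : t - x = t - y := h
          linarith
      _ = ∑ c ∈ (T.image (fun a => t - a)).filter (fun c => c ∈ T), R c * R c := by
          rw [sum_filter]
          apply sum_congr rfl
          intro c _
          by_cases hc : c ∈ T
          · rw [if_pos hc]
          · rw [if_neg hc, hRT c hc, mul_zero]
      _ ≤ ∑ c ∈ T, R c * R c := sum_le_sum_of_subset (fun c hc => (mem_filter.1 hc).2)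
  have h4 : 2 * ∑ a ∈ T, R a * R (t - a) ≤ ∑ a ∈ T, R a * R a + ∑ a ∈ T, R (t - a) * R (t - a) := by
    rw [mul_sum, ← sum_add_distrib]
    apply sum_le_sum
    intro a _
    have : (0 : ℤ) ≤ ((R a : ℤ) - R (t - a)) ^ 2 := sq_nonneg _
    zify
    nlinarith
  omega

lemma cnt_two {ι : Type} [Fintype ι] (v : ι → ℤ) (p : ℕ) (t : ℤ) : cnt v (p + p) t ≤ En p v := by
  classical
  have h1 := sq_bound (fun q : Fin p → ι => ∑ j, v (q j)) t
  have h2 : (univ.filter (fun q : (Fin p → ι) × (Fin p → ι) => ∑ j, v (q.1 j) = ∑ j, v (q.2 j))).card = En p v := by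
    unfold En
    rw [Nat.card_eq_fintype_card, Fintype.card_subtype]
  rw [← h2]
  refine le_trans ?_ h1
  unfold cnt
  apply card_le_card_of_injOn (fun q : Fin (p + p) → ι => ((fun j => q (Fin.castAdd p j)), (fun j => q (Fin.natAdd p j))))
  · intro q hq
    have hq' := (mem_filter.1 (mem_coe.1 hq)).2
    rw [Fin.sum_univ_add] at hq'
    exact mem_coe.2 (mem_filter.2 ⟨mem_univ _, hq'⟩)
  · intro q _ q' _ h
    have ha := congrArg Prod.fst h
    have hb := congrArg Prod.snd h
    funext j
    refine Fin.addCases (fun i => ?_) (fun i => ?_) j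
    · exact congrFun ha i
    · exact congrFun hb i

lemma cnt_succ {ι : Type} [Fintype ι] (v : ι → ℤ) (d M : ℕ) (h : ∀ t, cnt v d t ≤ M) (t : ℤ) :
    cnt v (d + 1) t ≤ Fintype.card ι * M := by
  classical
  unfold cnt
  calc (univ.filter (fun q : Fin (d + 1) → ι => ∑ j, v (q j) = t)).card
      = ∑ a : ι, ((univ.filter (fun q : Fin (d + 1) → ι => ∑ j, v (q j) = t)).filter (fun q => q 0 = a)).card :=
        card_eq_sum_card_fiberwise (fun q _ => mem_coe.2 (mem_univ (q 0)))
    _ ≤ ∑ _a : ι, M := by
        apply sum_le_sum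
        intro a _
        refine le_trans ?_ (h (t - v a))
        unfold cnt
        apply card_le_card_of_injOn (fun q : Fin (d + 1) → ι => fun j => q (Fin.succ j))
        · intro q hq
          have hq' := mem_filter.1 (mem_coe.1 hq)
          have h1 := (mem_filter.1 hq'.1).2
          rw [Fin.sum_univ_succ, hq'.2] at h1
          refine mem_coe.2 (mem_filter.2 ⟨mem_univ _, ?_⟩)
          show ∑ j : Fin d, v (q (Fin.succ j)) = t - v a
          linarith
        · intro q hq q' hq' hqq
          have e1 := (mem_filter.1 (mem_coe.1 hq)).2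
          have e2 := (mem_filter.1 (mem_coe.1 hq')).2
          funext j
          refine Fin.cases ?_ (fun i => ?_) j
          · rw [e1, e2]
          · exact congrFun hqq i
    _ = Fintype.card ι * M := by rw [sum_const, card_univ, smul_eq_mul]

lemma cnt_all {ι : Type} [Fintype ι] (v : ι → ℤ) (p e : ℕ) (t : ℤ) :
    cnt v (p + p + e) t ≤ Fintype.card ι ^ e * En p v := by
  induction e generalizing t with
  | zero => simpa using cnt_two v p t
  | succ e ih =>
    have h := cnt_succ v (p + p + e) _ ih t
    calc cnt v (p + p + (e + 1)) t ≤ Fintype.card ι * (Fintype.card ι ^ e * En p v) := h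
      _ = _ := by ring

end Pool.Agent.U108.KS
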